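import Pool.Agent.H45.SR.Tr

set_option autoImplicit false

open Finset

namespace Pool.Agent.Results.MP_933180_nt.DifferenceSet

/-- Differences of rational squares. Let all elements of the finite set `A` of rational numbers be of
the form `(r x)^2` with one nonzero rational `r` and rationals `x` of numerator at most `H` in
absolute value and of denominator at most `Q` (no common denominator is assumed; `Q = 1` is the case
of integers `x`). Then `A` has at least `|A|^(8/5) / (C log (H Q))^2` differences. -/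
theorem result :
    ∃ C : ℝ, 0 < C ∧ ∀ (H Q : ℕ) (r : ℚ) (A : Finset ℚ), 2 ≤ H → 1 ≤ Q → r ≠ 0 →
      (∀ a ∈ A, ∃ x : ℚ, |x.num| ≤ (H : ℤ) ∧ x.den ≤ Q ∧ a = (r * x) ^ 2) →
      (A.card : ℝ) ^ ((8 : ℝ) / 5) ≤ (C * Real.log ((H : ℝ) * Q)) ^ 2 *
        (((A ×ˢ A).image (fun p : ℚ × ℚ => p.1 - p.2)).card : ℝ) := by
  refine ⟨40000, by norm_num, ?_⟩
  intro H Q r A hH hQ hr hA
  obtain ⟨A', hA', eA, cA⟩ := H45SR.descend H Q r A hr hA
  have hr0 : r ^ 2 ≠ 0 := pow_ne_zero 2 hr
  have h1 := H45SR.dif_image A' (r ^ 2) hr0 A eA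
  have h2 := H45SR.dif_log H Q hH hQ A' hA'
  rw [cA] at h2
  refine h2.trans ?_
  apply mul_le_mul_of_nonneg_left _ (sq_nonneg _)
  exact_mod_cast h1

end Pool.Agent.Results.MP_933180_nt.DifferenceSet
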