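import Pool.Agent.H41.SQ.Exp

set_option autoImplicit false

open Finset

namespace Pool.Agent.Results.MP_933180_nt.PolynomialHeight

/-- Chang's conjecture for squares of (element of a multiplicative group of small rank) times
(rational number of polynomial height). Let `Γ` be the multiplicative group generated by `ρ`
arbitrary nonzero rational numbers `g 0, …, g (ρ - 1)`, and let every element of the finite set `A`
be of the form `(γ y)^2` with `γ ∈ Γ` and `y` rational with numerator and denominator at most `H` in
absolute value. For `0 < ε ≤ 1` the number `E(A)` of `(a, b, c, d)` in `A^4` with `a + b = c + d` is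
at most `(110 / ε)^(2 ρ) exp (exp (110 / ε)) H^ε |A|^2`. Hence `E(A) ≤ C |A|^(2 + δ)` if
`H = |A|^K` and `ρ ≤ c log |A|` (fixed `ε = δ / (2 K)`), and also if `H = |A|^(c log log |A|)` and
`ρ ≤ c log |A| / log log log |A|` (`ε` a multiple of `1 / log log |A|`). The heights of the elements
of `A` are not bounded in terms of `|A|`, `H`, `ρ`, and there is no common denominator.

Proof. (a) `ρ = 0`, up to a common factor: for `x ≠ z` put `s = x^2 - z^2`, `M = lcm (den x, den z)`
and let `δ` be the least natural number with `δ^2 s` an integer. Then `M = δ h` where `h` divides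
both `den x` and `den z`. For given `s` and `h` the number of pairs is at most the number of divisors
of `M^2 s`, an integer of size at most `H^6`. Give the pair `(x, z)` the weight
`m = #{y : h ∣ den y}`; the sum of `m` over the pairs with the same `s` and the sum of `1 / m` over
all pairs are both at most `|A| H^ε`. (b) If `p` is a prime at which `Γ` is not a group of units, the
classes `A_j` of `|a|_p` satisfy `E(A)^(1/2) ≤ 6 ∑_j E(A_j)^(1/2)` (in `a + b = c + d` two of the four
norms coincide); inside one class the elements with a given `p`-part `p^w` of `y` need a group of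
rank `ρ - 1` only, and the classes of different `w` are combined with the weights `p^(-η |w|)`. -/
theorem result (ε : ℝ) (hε : 0 < ε) (hε1 : ε ≤ 1) (ρ H : ℕ) (g : Fin ρ → ℚ) (A : Finset ℚ)
    (hH : 1 ≤ H) (hg : ∀ i, g i ≠ 0)
    (hA : ∀ a ∈ A, ∃ (e : Fin ρ → ℤ) (y : ℚ), |y.num| ≤ (H : ℤ) ∧ y.den ≤ H ∧
      a = ((∏ i, g i ^ e i) * y) ^ 2) :
    (((A ×ˢ A ×ˢ A ×ˢ A).filter
        (fun x : ℚ × ℚ × ℚ × ℚ => x.1 + x.2.1 = x.2.2.1 + x.2.2.2)).card : ℝ)
      ≤ (110 / ε) ^ (2 * ρ) * Real.exp (Real.exp (110 / ε)) * (H : ℝ) ^ ε * (A.card : ℝ) ^ 2 :=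
  H41SQ.main5 ε hε hε1 ρ H g A hH hg hA

end Pool.Agent.Results.MP_933180_nt.PolynomialHeight
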