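import Pool.Agent.H41.SU.Base

set_option autoImplicit false

open Finset

namespace Pool.Agent.Results.MP_933180_nt.SharpEnergies

/-- Energies of finite sets of rational squares in terms of the heights of the single elements, up to
`S`-units. Let `S` be a finite set of primes and let all elements of the finite set `A` of rational
numbers be of the form `(r s x)^2` with one nonzero rational `r`, products `s` of (positive or
negative) powers of primes of `S`, and rationals `x` of numerator at most `H` in absolute value and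
of denominator at most `Q` (no common denominator and no bound on the exponents of the primes of `S`
are assumed). For every number `k + 1 ≥ 2` of summands the number of pairs of `(k+1)`-tuples of `A`
with equal sums is at most
`((k+1)(2k+1))^((k+1)|S|) (C (log ((k+1) H) + (k+1) log Q))^(25/7) |A|^(2k + (6/7)/2^k)`. -/
theorem result :
    ∃ C : ℝ, 0 < C ∧ ∀ (S : Finset ℕ) (H Q : ℕ) (r : ℚ) (A : Finset ℚ),
      (∀ p ∈ S, p.Prime) → 2 ≤ H → 1 ≤ Q → r ≠ 0 →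
      (∀ a ∈ A, ∃ (e : ℕ → ℤ) (x : ℚ), |x.num| ≤ (H : ℤ) ∧ x.den ≤ Q ∧
        a = (r * (∏ p ∈ S, (p : ℚ) ^ (e p)) * x) ^ 2) →
      ∀ k : ℕ, 1 ≤ k →
        ((((Fintype.piFinset (fun _ : Fin (k + 1) => A)) ×ˢ
            (Fintype.piFinset (fun _ : Fin (k + 1) => A))).filter
            (fun p : (Fin (k + 1) → ℚ) × (Fin (k + 1) → ℚ) =>
              ∑ i, p.1 i = ∑ i, p.2 i)).card : ℝ)
          ≤ (((k : ℝ) + 1) * (2 * (k : ℝ) + 1)) ^ ((k + 1) * S.card) *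
            ((C * (Real.log (((k : ℝ) + 1) * H) + ((k : ℝ) + 1) * Real.log Q)) ^ ((25 : ℝ) / 7) *
            (A.card : ℝ) ^ (2 * (k : ℝ) + 6 / 7 * (1 / 2 : ℝ) ^ k)) := by
  refine ⟨50000, by norm_num, ?_⟩
  intro S H Q r A hS hH hQ hr hA k hk
  have hk0 : (0 : ℝ) < (k : ℝ) + 1 := by positivity
  have hk1 : (1 : ℝ) ≤ (k : ℝ) := by exact_mod_cast hk
  obtain ⟨θ, hθ⟩ : ∃ θ : ℝ, θ = 2 * (k : ℝ) + 6 / 7 * (1 / 2 : ℝ) ^ k := ⟨_, rfl⟩
  obtain ⟨K, hK⟩ : ∃ K : ℝ, K = (50000 * (Real.log (((k : ℝ) + 1) * H) +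
    ((k : ℝ) + 1) * Real.log Q)) ^ ((25 : ℝ) / 7) := ⟨_, rfl⟩
  have hHr : (2 : ℝ) ≤ H := by exact_mod_cast hH
  have hQr : (1 : ℝ) ≤ Q := by exact_mod_cast hQ
  have hlog : 0 ≤ 50000 * (Real.log (((k : ℝ) + 1) * H) + ((k : ℝ) + 1) * Real.log Q) := by
    have h1 : 0 ≤ Real.log (((k : ℝ) + 1) * H) := Real.log_nonneg (by nlinarith)
    have h2 : 0 ≤ Real.log Q := Real.log_nonneg hQr
    have h3 : 0 ≤ ((k : ℝ) + 1) * Real.log Q := mul_nonneg hk0.le h2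
    linarith
  have hK0 : 0 ≤ K := by rw [hK]; exact Real.rpow_nonneg hlog _
  have hθ1 : (k : ℝ) + 1 ≤ θ := by
    rw [hθ]
    have : (0 : ℝ) < 6 / 7 * (1 / 2 : ℝ) ^ k := by positivity
    linarith
  have hbase : ∀ (r : ℚ) (A : Finset ℚ), r ≠ 0 →
      (∀ a ∈ A, ∃ x : ℚ, |x.num| ≤ (H : ℤ) ∧ x.den ≤ Q ∧ a = (r * x) ^ 2) →
      (H41SU.TT (k + 1) (fun _ => A) : ℝ) ≤ K * (A.card : ℝ) ^ θ := by
    intro r A hr hA
    rw [H41SU.TT_eq, hK, hθ]
    exact H41SU.base45 H Q r A hH hQ hr hA k hk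
  have hmain := H41SU.sunit k hk H Q hQ K θ hK0 hθ1 hbase S hS r A hr hA
  rw [← H41SU.TT_eq, ← hK, ← hθ]
  obtain ⟨T, hT⟩ : ∃ T : ℝ, T = (H41SU.TT (k + 1) (fun _ => A) : ℝ) := ⟨_, rfl⟩
  rw [← hT] at hmain ⊢
  have hT0 : 0 ≤ T := by rw [hT]; exact Nat.cast_nonneg _
  have hn0 : (0 : ℝ) ≤ A.card := Nat.cast_nonneg _
  have h1 := pow_le_pow_left₀ (Real.rpow_nonneg hT0 _) hmain (k + 1)
  have e1 : (T ^ ((1 : ℝ) / ((k : ℝ) + 1))) ^ (k + 1) = T := by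
    rw [← Real.rpow_natCast, ← Real.rpow_mul hT0]
    have : (1 : ℝ) / ((k : ℝ) + 1) * ((k + 1 : ℕ) : ℝ) = 1 := by push_cast; field_simp
    rw [this, Real.rpow_one]
  have e2 : (K ^ ((1 : ℝ) / ((k : ℝ) + 1))) ^ (k + 1) = K := by
    rw [← Real.rpow_natCast, ← Real.rpow_mul hK0]
    have : (1 : ℝ) / ((k : ℝ) + 1) * ((k + 1 : ℕ) : ℝ) = 1 := by push_cast; field_simp
    rw [this, Real.rpow_one]
  have e3 : ((A.card : ℝ) ^ (θ / ((k : ℝ) + 1))) ^ (k + 1) = (A.card : ℝ) ^ θ := by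
    rw [← Real.rpow_natCast, ← Real.rpow_mul hn0]
    have : θ / ((k : ℝ) + 1) * ((k + 1 : ℕ) : ℝ) = θ := by push_cast; field_simp
    rw [this]
  have e4 : (((k + 1) * (2 * k + 1) : ℕ) : ℝ) = ((k : ℝ) + 1) * (2 * (k : ℝ) + 1) := by
    push_cast; ring
  rw [e1, mul_pow, mul_pow, e2, e3, e4, ← pow_mul, mul_comm S.card (k + 1)] at h1
  exact h1

end Pool.Agent.Results.MP_933180_nt.SharpEnergies
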