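import Pool.Agent.H41.SU.Gen

set_option autoImplicit false

open Finset

namespace Pool.Agent.Results.MP_933180_nt.ThirdMoment

/-- The third moment of the representation function of `A - A` for rational squares, up to `S`-units.
Let `S` be a finite set of primes and let all elements of the finite set `A` of rational numbers be of
the form `(r s x)^2` with one nonzero rational `r`, products `s` of (positive or negative) powers of
primes of `S`, and rationals `x` of numerator at most `H` in absolute value and of denominator at most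
`Q` (no common denominator and no bound on the exponents of the primes of `S` are assumed). The
number of `(a, b, a', b', a'', b'')` in `A^6` with `a - b = a' - b' = a'' - b''` is at most
`(7^|S| C log (H Q))^3 |A|^3`; this is best possible in `|A|` (take `a = b`, `a' = b'`,
`a'' = b''`). -/
theorem result :
    ∃ C : ℝ, 0 < C ∧ ∀ (S : Finset ℕ) (H Q : ℕ) (r : ℚ) (A : Finset ℚ),
      (∀ p ∈ S, p.Prime) → 2 ≤ H → 1 ≤ Q → r ≠ 0 →
      (∀ a ∈ A, ∃ (e : ℕ → ℤ) (x : ℚ), |x.num| ≤ (H : ℤ) ∧ x.den ≤ Q ∧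
        a = (r * (∏ p ∈ S, (p : ℚ) ^ (e p)) * x) ^ 2) →
      ((((A ×ˢ A) ×ˢ (A ×ˢ A) ×ˢ (A ×ˢ A)).filter
          (fun p : (ℚ × ℚ) × (ℚ × ℚ) × (ℚ × ℚ) =>
            p.1.1 - p.1.2 = p.2.1.1 - p.2.1.2 ∧
              p.2.1.1 - p.2.1.2 = p.2.2.1 - p.2.2.2)).card : ℝ)
        ≤ (7 ^ S.card * (C * Real.log ((H : ℝ) * Q))) ^ 3 * (A.card : ℝ) ^ 3 := by
  refine ⟨40000, by norm_num, ?_⟩
  intro S H Q r A hS hH hQ hr hA
  have h := H41SU.third_sunit S hS H Q r A hH hQ hr hA
  rw [← mul_pow]
  exact h

end Pool.Agent.Results.MP_933180_nt.ThirdMoment
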